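import Pool.Agent.Helper25.HL.Goals2

/-!
Project HL, packet R1: coherence holds for most codes.
-/

set_option autoImplicit false

namespace Pool.Agent.Helper46.HL

open Pool.Agent.Helper25.HL

theorem sg_not (b : Bool) : sg (!b) = - sg b := by cases b <;> simp [sg]

theorem sg_cases (b : Bool) : sg b = 1 ∨ sg b = -1 := by cases b <;> simp [sg]

theorem row_sum {q : ℕ} {s t : Fin q} (h : s ≠ t) (lam : ℝ) :
    ∑ ρ : Fin q → Bool, Real.exp (lam * (sg (ρ s) * sg (ρ t))) = 2 ^ q * Real.cosh lam := by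
  classical
  set fl : (Fin q → Bool) → (Fin q → Bool) := fun ρ => Function.update ρ t (!ρ t) with hfl
  have hinv : Function.Involutive fl := by
    intro ρ
    simp [hfl]
  have h1 : ∑ ρ : Fin q → Bool, Real.exp (lam * (sg (fl ρ s) * sg (fl ρ t))) =
      ∑ ρ : Fin q → Bool, Real.exp (lam * (sg (ρ s) * sg (ρ t))) :=
    Equiv.sum_comp hinv.toPerm (fun ρ => Real.exp (lam * (sg (ρ s) * sg (ρ t))))
  have h2 : ∀ ρ : Fin q → Bool, Real.exp (lam * (sg (ρ s) * sg (ρ t))) +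
      Real.exp (lam * (sg (fl ρ s) * sg (fl ρ t))) = 2 * Real.cosh lam := by
    intro ρ
    have e1 : fl ρ s = ρ s := by simp [hfl, Function.update_of_ne h]
    have e2 : fl ρ t = !ρ t := by simp [hfl]
    rw [e1, e2, sg_not, Real.cosh_eq]
    rcases sg_cases (ρ s) with a | a <;> rcases sg_cases (ρ t) with b | b <;> rw [a, b] <;>
      simp <;> ring
  have h3 : ∑ ρ : Fin q → Bool, (Real.exp (lam * (sg (ρ s) * sg (ρ t))) +
      Real.exp (lam * (sg (fl ρ s) * sg (fl ρ t)))) = 2 ^ q * (2 * Real.cosh lam) := by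
    rw [Finset.sum_congr rfl fun ρ _ => h2 ρ]
    simp
  rw [Finset.sum_add_distrib, h1] at h3
  linarith

open Classical in
theorem tail {p q : ℕ} {s t : Fin q} (h : s ≠ t) (lam u : ℝ) :
    ((Finset.univ.filter fun σ : Fin p → Fin q → Bool =>
      u ≤ lam * ∑ a, sg (σ a s) * sg (σ a t)).card : ℝ) * Real.exp u ≤
      (2 ^ q * Real.cosh lam) ^ p := by
  rw [← row_sum h lam, Fintype.sum_pow, ← nsmul_eq_mul, ← Finset.sum_const]
  refine le_trans (Finset.sum_le_sum (g := fun σ : Fin p → Fin q → Bool =>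
    ∏ a, Real.exp (lam * (sg (σ a s) * sg (σ a t)))) ?_) ?_
  · intro σ hσ
    rw [← Real.exp_sum, ← Finset.mul_sum]
    exact Real.exp_le_exp.2 (Finset.mem_filter.1 hσ).2
  · refine Finset.sum_le_sum_of_subset_of_nonneg (Finset.filter_subset _ _) ?_
    intro σ _ _
    exact Finset.prod_nonneg fun a _ => (Real.exp_pos _).le

theorem pow_bound (p q : ℕ) (lam : ℝ) :
    (2 ^ q * Real.cosh lam) ^ p ≤ (2 : ℝ) ^ (p * q) * Real.exp (p * lam ^ 2 / 2) := by
  rw [mul_pow, ← pow_mul, mul_comm q p]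
  refine mul_le_mul_of_nonneg_left ?_ (by positivity)
  calc Real.cosh lam ^ p ≤ Real.exp (lam ^ 2 / 2) ^ p :=
        pow_le_pow_left₀ (Real.cosh_pos lam).le (Real.cosh_le_exp_half_sq lam) p
    _ = Real.exp (p * lam ^ 2 / 2) := by
        rw [← Real.exp_nat_mul]
        congr 1
        ring

theorem coh_eq {p q : ℕ} (hp : 0 < p) (σ : Fin p → Fin q → Bool) (s t : Fin q) :
    ∑ a, Rm σ a s * Rm σ a t = (∑ a, sg (σ a s) * sg (σ a t)) / p := by
  have h0 : (0 : ℝ) < p := by exact_mod_cast hp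
  rw [Finset.sum_div]
  refine Finset.sum_congr rfl fun a _ => ?_
  have h1 : Real.sqrt p * Real.sqrt p = p := Real.mul_self_sqrt h0.le
  have h2 : Real.sqrt p ≠ 0 := (Real.sqrt_pos.2 h0).ne'
  unfold Rm sg
  rw [div_mul_div_comm, h1]

open Classical in
theorem pair_bound {p q : ℕ} (hp : 0 < p) {s t : Fin q} (h : s ≠ t) :
    ((Finset.univ.filter fun σ : Fin p → Fin q → Bool =>
      (p : ℝ) ^ (-(1 / 4 : ℝ)) < |∑ a, Rm σ a s * Rm σ a t|).card : ℝ) ≤
      2 * ((2 : ℝ) ^ (p * q) * Real.exp (-(Real.sqrt p / 2))) := by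
  have h0 : (0 : ℝ) < p := by exact_mod_cast hp
  set lam : ℝ := (p : ℝ) ^ (-(1 / 4 : ℝ)) with hlam
  have hlam0 : 0 < lam := Real.rpow_pos_of_pos h0 _
  have hl2 : (p : ℝ) * lam ^ 2 = Real.sqrt p := by
    rw [hlam, ← Real.rpow_natCast, ← Real.rpow_mul h0.le, Real.sqrt_eq_rpow]
    nth_rw 1 [← Real.rpow_one (p : ℝ)]
    rw [← Real.rpow_add h0]
    norm_num
  have key : ∀ m : ℝ, m ^ 2 = lam ^ 2 →
      ((Finset.univ.filter fun σ : Fin p → Fin q → Bool =>
        Real.sqrt p ≤ m * ∑ a, sg (σ a s) * sg (σ a t)).card : ℝ) ≤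
        (2 : ℝ) ^ (p * q) * Real.exp (-(Real.sqrt p / 2)) := by
    intro m hm
    have e1 := tail (p := p) h m (Real.sqrt p)
    have e2 := le_trans e1 (pow_bound p q m)
    rw [hm, hl2] at e2
    have e3 : Real.exp (Real.sqrt p / 2) =
        Real.exp (-(Real.sqrt p / 2)) * Real.exp (Real.sqrt p) := by
      rw [← Real.exp_add]; congr 1; ring
    rw [e3, ← mul_assoc] at e2
    exact le_of_mul_le_mul_right e2 (Real.exp_pos _)
  have k1 := key lam rfl
  have k2 := key (-lam) (by ring)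
  have hsub : (Finset.univ.filter fun σ : Fin p → Fin q → Bool =>
      lam < |∑ a, Rm σ a s * Rm σ a t|) ⊆
      (Finset.univ.filter fun σ : Fin p → Fin q → Bool =>
        Real.sqrt p ≤ lam * ∑ a, sg (σ a s) * sg (σ a t)) ∪
      (Finset.univ.filter fun σ : Fin p → Fin q → Bool =>
        Real.sqrt p ≤ (-lam) * ∑ a, sg (σ a s) * sg (σ a t)) := by
    intro σ hσ
    have h1 := (Finset.mem_filter.1 hσ).2
    rw [coh_eq hp, abs_div, abs_of_pos h0, lt_div_iff₀ h0] at h1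
    rw [Finset.mem_union, Finset.mem_filter, Finset.mem_filter]
    have h2 : Real.sqrt p ≤ lam * |∑ a, sg (σ a s) * sg (σ a t)| := by
      rw [← hl2]
      nlinarith
    rcases abs_cases (∑ a, sg (σ a s) * sg (σ a t)) with ⟨h3, _⟩ | ⟨h3, _⟩
    · left
      exact ⟨Finset.mem_univ _, by rwa [h3] at h2⟩
    · right
      refine ⟨Finset.mem_univ _, ?_⟩
      rw [h3] at h2
      linarith
  have e4 := Finset.card_le_card hsub
  have e5 := le_trans e4 (Finset.card_union_le _ _)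
  have e6 : ((Finset.univ.filter fun σ : Fin p → Fin q → Bool =>
      lam < |∑ a, Rm σ a s * Rm σ a t|).card : ℝ) ≤
      ((Finset.univ.filter fun σ : Fin p → Fin q → Bool =>
        Real.sqrt p ≤ lam * ∑ a, sg (σ a s) * sg (σ a t)).card : ℝ) +
      ((Finset.univ.filter fun σ : Fin p → Fin q → Bool =>
        Real.sqrt p ≤ (-lam) * ∑ a, sg (σ a s) * sg (σ a t)).card : ℝ) := by
    exact_mod_cast e5
  linarith

theorem num_bound {p q : ℕ} (hp : 10000 ≤ p) (hq : q ≤ 2 ^ (Nat.sqrt p / 4)) :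
    ((q : ℝ) * q) * (2 * Real.exp (-(Real.sqrt p / 2))) ≤ 1 / 8 := by
  have h0 : (100 : ℝ) ≤ Real.sqrt p := by
    apply Real.le_sqrt_of_sq_le
    have : (10000 : ℝ) ≤ p := by exact_mod_cast hp
    linarith
  have h1 : (q : ℝ) ≤ Real.exp (Real.sqrt p / 4 * Real.log 2) := by
    have e1 : (q : ℝ) ≤ (2 : ℝ) ^ (Nat.sqrt p / 4) := by exact_mod_cast hq
    refine le_trans e1 ?_
    rw [mul_comm, Real.exp_mul, Real.exp_log (by norm_num), ← Real.rpow_natCast]
    apply Real.rpow_le_rpow_of_exponent_le (by norm_num)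
    have e2 : ((Nat.sqrt p / 4 : ℕ) : ℝ) ≤ (Nat.sqrt p : ℝ) / 4 := Nat.cast_div_le
    have e3 : (Nat.sqrt p : ℝ) ≤ Real.sqrt p := Real.nat_sqrt_le_real_sqrt
    linarith
  have h2 : Real.exp (Real.sqrt p / 4 * Real.log 2) ≤ Real.exp (Real.sqrt p * (7 / 40)) := by
    apply Real.exp_le_exp.2
    have := Real.log_two_lt_d9
    nlinarith
  have h3 : (q : ℝ) ≤ Real.exp (Real.sqrt p * (7 / 40)) := le_trans h1 h2
  have h4 : (q : ℝ) * q ≤ Real.exp (Real.sqrt p * (7 / 20)) := by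
    have e : Real.exp (Real.sqrt p * (7 / 20)) =
        Real.exp (Real.sqrt p * (7 / 40)) * Real.exp (Real.sqrt p * (7 / 40)) := by
      rw [← Real.exp_add]; congr 1; ring
    rw [e]
    exact mul_le_mul h3 h3 (by positivity) (Real.exp_pos _).le
  have h5 : Real.exp (Real.sqrt p * (7 / 20)) * Real.exp (-(Real.sqrt p / 2)) ≤
      Real.exp (-15) := by
    rw [← Real.exp_add]
    apply Real.exp_le_exp.2
    linarith
  have h6 : Real.exp (-15) ≤ 1 / 16 := by
    rw [Real.exp_neg, ← one_div]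
    apply one_div_le_one_div_of_le (by norm_num)
    have := Real.add_one_le_exp (15 : ℝ)
    linarith
  have h7 : ((q : ℝ) * q) * Real.exp (-(Real.sqrt p / 2)) ≤
      Real.exp (Real.sqrt p * (7 / 20)) * Real.exp (-(Real.sqrt p / 2)) :=
    mul_le_mul_of_nonneg_right h4 (Real.exp_pos _).le
  linarith

theorem r1 : S_R1 := by
  classical
  refine ⟨10000, fun p q hp hq => ?_⟩
  have hp0 : 0 < p := by omega
  have hsub : (Finset.univ.filter fun σ : Fin p → Fin q → Bool => ¬ P1 σ) ⊆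
      (Finset.univ.offDiag : Finset (Fin q × Fin q)).biUnion fun x =>
        Finset.univ.filter fun σ : Fin p → Fin q → Bool =>
          (p : ℝ) ^ (-(1 / 4 : ℝ)) < |∑ a, Rm σ a x.1 * Rm σ a x.2| := by
    intro σ hσ
    have h1 := (Finset.mem_filter.1 hσ).2
    unfold P1 at h1
    push Not at h1
    obtain ⟨s, t, hst, h2⟩ := h1
    rw [Finset.mem_biUnion]
    exact ⟨(s, t), by simp [hst], Finset.mem_filter.2 ⟨Finset.mem_univ _, h2⟩⟩
  have e1 := Finset.card_le_card hsub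
  have e2 := le_trans e1 Finset.card_biUnion_le
  have e3 : ((Finset.univ.filter fun σ : Fin p → Fin q → Bool => ¬ P1 σ).card : ℝ) ≤
      ∑ x ∈ (Finset.univ.offDiag : Finset (Fin q × Fin q)),
        ((Finset.univ.filter fun σ : Fin p → Fin q → Bool =>
          (p : ℝ) ^ (-(1 / 4 : ℝ)) < |∑ a, Rm σ a x.1 * Rm σ a x.2|).card : ℝ) := by
    exact_mod_cast e2
  have e4 : ∑ x ∈ (Finset.univ.offDiag : Finset (Fin q × Fin q)),
        ((Finset.univ.filter fun σ : Fin p → Fin q → Bool =>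
          (p : ℝ) ^ (-(1 / 4 : ℝ)) < |∑ a, Rm σ a x.1 * Rm σ a x.2|).card : ℝ) ≤
      ∑ x ∈ (Finset.univ.offDiag : Finset (Fin q × Fin q)),
        2 * ((2 : ℝ) ^ (p * q) * Real.exp (-(Real.sqrt p / 2))) := by
    refine Finset.sum_le_sum fun x hx => ?_
    have hx' : x.1 ≠ x.2 := (Finset.mem_offDiag.1 hx).2.2
    exact pair_bound hp0 hx'
  have e5 : ((Finset.univ.offDiag : Finset (Fin q × Fin q)).card : ℝ) ≤ (q : ℝ) * q := by
    rw [Finset.offDiag_card, Finset.card_univ, Fintype.card_fin]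
    have : q * q - q ≤ q * q := Nat.sub_le _ _
    exact_mod_cast this
  rw [Finset.sum_const, nsmul_eq_mul] at e4
  have e6 := num_bound hp hq
  have e7 : ((Finset.univ.offDiag : Finset (Fin q × Fin q)).card : ℝ) *
      (2 * ((2 : ℝ) ^ (p * q) * Real.exp (-(Real.sqrt p / 2)))) ≤
      ((q : ℝ) * q) * (2 * ((2 : ℝ) ^ (p * q) * Real.exp (-(Real.sqrt p / 2)))) :=
    mul_le_mul_of_nonneg_right e5 (by positivity)
  have e8 : ((q : ℝ) * q) * (2 * ((2 : ℝ) ^ (p * q) * Real.exp (-(Real.sqrt p / 2)))) =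
      (2 : ℝ) ^ (p * q) * (((q : ℝ) * q) * (2 * Real.exp (-(Real.sqrt p / 2)))) := by ring
  have e9 : (2 : ℝ) ^ (p * q) * (((q : ℝ) * q) * (2 * Real.exp (-(Real.sqrt p / 2)))) ≤
      (2 : ℝ) ^ (p * q) * (1 / 8) := mul_le_mul_of_nonneg_left e6 (by positivity)
  have e10 : (cnt (fun σ : Fin p → Fin q → Bool => ¬ P1 σ) : ℝ) =
      ((Finset.univ.filter fun σ : Fin p → Fin q → Bool => ¬ P1 σ).card : ℝ) := by
    unfold cnt
    congr!
  rw [e10]
  linarith

end Pool.Agent.Helper46.HL
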